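import Pool.Agent.H63N.NRLimit

/-! The numerical radius of fractional powers of accretive matrices. -/

namespace Pool.Agent.Results.MP_cf7953_an.FractionalPowers

open Pool.Agent.H63N.NR

/-- For every accretive complex `n × n` matrix `A` and every `1/2 < t < 1`, the numerical radius of
the principal power `A^t` is at least the `t`-th power of the numerical radius of `A`. -/
theorem result (n : ℕ) (A : Matrix (Fin n) (Fin n) ℂ) (hA : Accretive A) (t : ℝ)
    (ht : 1 / 2 < t) (ht1 : t < 1) : numRadius A ^ t ≤ numRadius (fracPow A t) :=
  main A hA t ht ht1

end Pool.Agent.Results.MP_cf7953_an.FractionalPowers
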